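import Pool.Agent.Helper17.R5.Sheet

set_option autoImplicit false

namespace Pool.Helper17.R5

open Pool.Agent.Helper97.RK (cur)

theorem cert_z {M : ℤ} (q : ℕ) (hq : (q : ℤ) ∣ M) {a b : ℤ} (h : a ≡ b [ZMOD M]) :
    (a : ZMod q) = (b : ZMod q) :=
  (ZMod.intCast_eq_intCast_iff a b q).2 (h.of_dvd hq)

/-- `1000! / 6` -/
def M6 : ℤ := ((Nat.factorial 1000 / 6 : ℕ) : ℤ)

theorem six_M6 : MM = 6 * M6 := by
  unfold MM M6
  have h1 : Nat.factorial 3 ∣ Nat.factorial 1000 := Nat.factorial_dvd_factorial (by norm_num)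
  have h2 : Nat.factorial 3 = 6 := by decide
  rw [h2] at h1
  have h3 : ∀ n : ℕ, 6 ∣ n → (n : ℤ) = 6 * ((n / 6 : ℕ) : ℤ) := by
    intro n hn
    omega
  exact h3 _ h1

theorem mod_of {n a b c : ℤ} (h : a ≡ b [ZMOD n]) (e : b = c) : a ≡ c [ZMOD n] := e ▸ h

theorem dvd_M6 {q : ℕ} (h0 : 0 < q) (hq : q ≤ 997) : (q : ℤ) ∣ M6 := by
  unfold M6
  have h1 : Nat.factorial 3 * Nat.factorial 997 ∣ Nat.factorial (3 + 997) :=
    Nat.factorial_mul_factorial_dvd_factorial_add 3 997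
  have h2 : q ∣ Nat.factorial 997 := Nat.dvd_factorial h0 hq
  have h3 : 6 * q ∣ Nat.factorial 1000 := by
    have h4 : 6 * q ∣ Nat.factorial 3 * Nat.factorial 997 := by
      have : Nat.factorial 3 = 6 := by decide
      rw [this]
      exact Nat.mul_dvd_mul_left 6 h2
    exact h4.trans h1
  have h5 : q ∣ Nat.factorial 1000 / 6 := by
    obtain ⟨k, hk⟩ := h3
    exact ⟨k, by rw [hk, mul_assoc, Nat.mul_div_cancel_left _ (by norm_num)]⟩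
  exact_mod_cast h5

theorem cert_y {y : Fin 5 → ℤ} (h : Good y) (i : Fin 5) : y i ≡ yb i [ZMOD MM] :=
  (Int.modEq_iff_dvd.2 (h i)).symm

theorem cert_y6 {y : Fin 5 → ℤ} (h : Good y) (i : Fin 5) : y i ≡ yb i [ZMOD M6] :=
  (cert_y h i).of_dvd ⟨6, by rw [six_M6]; ring⟩

theorem cert_div {a b : ℤ} (h : 6 * a ≡ 6 * b [ZMOD MM]) : a ≡ b [ZMOD M6] := by
  rw [six_M6] at h
  obtain ⟨k, hk⟩ := Int.modEq_iff_dvd.1 h
  exact Int.modEq_iff_dvd.2 ⟨k, by linarith⟩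

theorem cert_bcd (h1 : ST_REL) {y : Fin 5 → ℤ} (h : Good y) :
    cc y ≡ -21 [ZMOD M6] ∧ bb y ≡ -124 [ZMOD M6] ∧ dd y ≡ 118 [ZMOD M6] := by
  obtain ⟨e1, e2, e3, -⟩ := h1 y h
  have y0 : y 0 ≡ 8 [ZMOD MM] := cert_y h 0
  have y1 : y 1 ≡ 4 [ZMOD MM] := cert_y h 1
  have y2 : y 2 ≡ 3 [ZMOD MM] := cert_y h 2
  have y3 : y 3 ≡ 2 [ZMOD MM] := cert_y h 3
  have y4 : y 4 ≡ 5 [ZMOD MM] := cert_y h 4
  refine ⟨cert_div ?_, cert_div ?_, cert_div ?_⟩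
  · rw [e1]
    exact mod_of ((((y3.pow 2).add (y1.pow 2)).sub ((Int.ModEq.refl 2).mul (y0.pow 2))).sub
      ((Int.ModEq.refl 2).mul (y2.pow 2))) (by norm_num)
  · rw [e2]
    exact mod_of (((((y4.pow 2).sub ((Int.ModEq.refl 12).mul (y0.pow 2))).sub
      ((Int.ModEq.refl 3).mul (y3.pow 2))).sub (y1.pow 2)).add
      ((Int.ModEq.refl 3).mul (y2.pow 2))) (by norm_num)
  · rw [e3]
    exact mod_of ((((((Int.ModEq.refl 6).mul (y3.pow 2)).sub ((Int.ModEq.refl 2).mul (y1.pow 2))).sub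
      (y4.pow 2)).add ((Int.ModEq.refl 12).mul (y0.pow 2))).sub
      ((Int.ModEq.refl 3).mul (y2.pow 2))) (by norm_num)

theorem cert_vals (h1 : ST_REL) {y : Fin 5 → ℤ} (h : Good y) :
    aA y ≡ -18259 [ZMOD M6] ∧ aB y ≡ 800494 [ZMOD M6] ∧
    xP y 1 1 ≡ 167 [ZMOD M6] ∧ xP y 2 1 ≡ -69 [ZMOD M6] ∧ xP y 3 1 ≡ -49 [ZMOD M6] ∧
    xP y 4 1 ≡ 163 [ZMOD M6] ∧ xP y 4 (-1) ≡ 323 [ZMOD M6] := by
  obtain ⟨c1, b1, d1⟩ := cert_bcd h1 h
  have y0 : y 0 ≡ 8 [ZMOD M6] := cert_y6 h 0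
  have y1 : y 1 ≡ 4 [ZMOD M6] := cert_y6 h 1
  have y2 : y 2 ≡ 3 [ZMOD M6] := cert_y6 h 2
  have y3 : y 3 ≡ 2 [ZMOD M6] := cert_y6 h 3
  have y4 : y 4 ≡ 5 [ZMOD M6] := cert_y6 h 4
  have eP : ∀ (i : Fin 5) (s w : ℤ), y i ≡ w [ZMOD M6] →
      xP y i s ≡ 2 * 8 ^ 2 * xi i ^ 2 + (-124) * xi i + (-21) - 2 * s * 8 * w [ZMOD M6] := by
    intro i s w hw
    unfold xP
    exact (((((Int.ModEq.refl 2).mul (y0.pow 2)).mul (Int.ModEq.refl (xi i ^ 2))).add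
      (b1.mul (Int.ModEq.refl (xi i)))).add c1).sub
      (((Int.ModEq.refl (2 * s)).mul y0).mul hw)
  refine ⟨?_, ?_, ?_, ?_, ?_, ?_, ?_⟩
  · unfold aA
    exact mod_of (((((Int.ModEq.refl 4).mul (y0.pow 2)).mul (y2.pow 2)).sub (b1.mul d1)).add
      ((Int.ModEq.refl 3).mul (c1.pow 2))).neg (by norm_num)
  · unfold aB
    exact mod_of ((((((y0.pow 2).mul (d1.pow 2)).add ((y2.pow 2).mul (b1.pow 2))).sub
      ((b1.mul d1).mul c1)).sub ((((Int.ModEq.refl 8).mul (y0.pow 2)).mul c1).mul (y2.pow 2))).add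
      ((Int.ModEq.refl 2).mul (c1.pow 3))) (by norm_num)
  · exact mod_of (eP 1 1 4 y1) (by decide)
  · exact mod_of (eP 2 1 3 y2) (by decide)
  · exact mod_of (eP 3 1 2 y3) (by decide)
  · exact mod_of (eP 4 1 5 y4) (by decide)
  · exact mod_of (eP 4 (-1) 5 y4) (by decide)

theorem cert_dec5 : ∀ S : Finset (Fin 5), S.Nonempty →
    ¬ IsSquare (∏ i ∈ S, (((![167, -69, -49, 163, 323] : Fin 5 → ℤ) i - 5 : ℤ) : ZMod 7)) ∨
    ¬ IsSquare (∏ i ∈ S, (((![167, -69, -49, 163, 323] : Fin 5 → ℤ) i - 5 : ℤ) : ZMod 11)) ∨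
    ¬ IsSquare (∏ i ∈ S, (((![167, -69, -49, 163, 323] : Fin 5 → ℤ) i - 7 : ℤ) : ZMod 11)) ∨
    ¬ IsSquare (∏ i ∈ S, (((![167, -69, -49, 163, 323] : Fin 5 → ℤ) i - 1 : ℤ) : ZMod 13)) ∨
    ¬ IsSquare (∏ i ∈ S, (((![167, -69, -49, 163, 323] : Fin 5 → ℤ) i - 2 : ℤ) : ZMod 13)) := by
  decide +kernel

theorem cert_five (t : ZMod 5) : t ^ 3 + ((-18259 : ℤ) : ZMod 5) * t + ((800494 : ℤ) : ZMod 5) ≠ 0 := by
  revert t
  decide

theorem cert_step (n : ℕ) (A B : ℤ) (x b : Fin n → ℤ) (hA : A ≡ -18259 [ZMOD M6])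
    (hB : B ≡ 800494 [ZMOD M6]) (hx : ∀ i, x i ≡ b i [ZMOD M6]) (S : Finset (Fin n)) (q : ℕ)
    (e : ℤ) (hqp : q.Prime) (hq : (q : ℤ) ∣ M6)
    (h1 : ((e ^ 3 + (-18259) * e + 800494 : ℤ) : ZMod q) = 0)
    (h2 : ((3 * e ^ 2 + (-18259) : ℤ) : ZMod q) ≠ 0)
    (h3 : ¬ IsSquare (∏ i ∈ S, ((b i - e : ℤ) : ZMod q))) :
    ∃ (q : ℕ) (e : ℤ), q.Prime ∧
      ((e ^ 3 + A * e + B : ℤ) : ZMod q) = 0 ∧ ((3 * e ^ 2 + A : ℤ) : ZMod q) ≠ 0 ∧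
      ¬ IsSquare (∏ i ∈ S, ((x i - e : ℤ) : ZMod q)) := by
  refine ⟨q, e, hqp, ?_, ?_, ?_⟩
  · rw [← h1]
    exact cert_z q hq (((Int.ModEq.refl (e ^ 3)).add (hA.mul (Int.ModEq.refl e))).add hB)
  · intro h
    apply h2
    rw [← h]
    exact cert_z q hq (((Int.ModEq.refl (3 * e ^ 2)).add hA).symm)
  · intro h
    apply h3
    refine (congrArg IsSquare ?_).mp h
    apply Finset.prod_congr rfl
    intro i _
    exact cert_z q hq ((hx i).sub (Int.ModEq.refl e))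

theorem cert_all (n : ℕ) (A B : ℤ) (x b : Fin n → ℤ) (hA : A ≡ -18259 [ZMOD M6])
    (hB : B ≡ 800494 [ZMOD M6]) (hx : ∀ i, x i ≡ b i [ZMOD M6]) (S : Finset (Fin n))
    (h : ¬ IsSquare (∏ i ∈ S, ((b i - 5 : ℤ) : ZMod 7)) ∨
    ¬ IsSquare (∏ i ∈ S, ((b i - 5 : ℤ) : ZMod 11)) ∨
    ¬ IsSquare (∏ i ∈ S, ((b i - 7 : ℤ) : ZMod 11)) ∨
    ¬ IsSquare (∏ i ∈ S, ((b i - 1 : ℤ) : ZMod 13)) ∨
    ¬ IsSquare (∏ i ∈ S, ((b i - 2 : ℤ) : ZMod 13))) :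
    ∃ (q : ℕ) (e : ℤ), q.Prime ∧
      ((e ^ 3 + A * e + B : ℤ) : ZMod q) = 0 ∧ ((3 * e ^ 2 + A : ℤ) : ZMod q) ≠ 0 ∧
      ¬ IsSquare (∏ i ∈ S, ((x i - e : ℤ) : ZMod q)) := by
  rcases h with h | h | h | h | h
  · exact cert_step n A B x b hA hB hx S 7 5 (by norm_num) (dvd_M6 (by norm_num) (by norm_num)) (by decide)
      (by decide) h
  · exact cert_step n A B x b hA hB hx S 11 5 (by norm_num) (dvd_M6 (by norm_num) (by norm_num)) (by decide)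
      (by decide) h
  · exact cert_step n A B x b hA hB hx S 11 7 (by norm_num) (dvd_M6 (by norm_num) (by norm_num)) (by decide)
      (by decide) h
  · exact cert_step n A B x b hA hB hx S 13 1 (by norm_num) (dvd_M6 (by norm_num) (by norm_num)) (by decide)
      (by decide) h
  · exact cert_step n A B x b hA hB hx S 13 2 (by norm_num) (dvd_M6 (by norm_num) (by norm_num)) (by decide)
      (by decide) h

/-- row CERT -/
theorem st_CERT (hR : Pool.Agent.Helper97.RK.ST_RANK) (h1 : ST_REL) (h2 : ST_PTS) : ST_CERT := by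
  intro y hG
  obtain ⟨hA, hB, x1, x2, x3, x4, x5⟩ := cert_vals h1 hG
  have hd5 : ((5 : ℕ) : ℤ) ∣ M6 := dvd_M6 (by norm_num) (by norm_num)
  have hdisc : 4 * aA y ^ 3 + 27 * aB y ^ 2 ≠ 0 := by
    intro h
    have h3 : 4 * aA y ^ 3 + 27 * aB y ^ 2 ≡
        4 * (-18259) ^ 3 + 27 * 800494 ^ 2 [ZMOD 5] :=
      (((Int.ModEq.refl 4).mul ((hA.of_dvd hd5).pow 3)).add
        ((Int.ModEq.refl 27).mul ((hB.of_dvd hd5).pow 2)))
    rw [h] at h3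
    revert h3
    decide
  have h5 : ∀ t : ZMod 5, t ^ 3 + (aA y : ZMod 5) * t + (aB y : ZMod 5) ≠ 0 := by
    intro t
    rw [cert_z 5 hd5 hA, cert_z 5 hd5 hB]
    exact cert_five t
  refine ⟨hdisc, ?_, ?_⟩
  · intro q hq hlt hdv
    obtain ⟨ha, hb⟩ := hdv
    have hlt2 : q ≤ 997 := by
      by_contra hc
      have hq3 : q = 998 ∨ q = 999 ∨ q = 1000 := by omega
      rcases hq3 with rfl | rfl | rfl <;> exact absurd hq (by norm_num)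
    have hqM : (q : ℤ) ∣ M6 := dvd_M6 hq.pos hlt2
    have ha' : (q : ℤ) ∣ -18259 := (hA.of_dvd hqM).dvd_iff.1 ha
    have hb' : (q : ℤ) ∣ 800494 := (hB.of_dvd hqM).dvd_iff.1 hb
    have h1' : (q : ℤ) ∣ 1 := by
      have e2 : IsCoprime (-18259 : ℤ) 800494 := by
        rw [Int.isCoprime_iff_gcd_eq_one]
        decide
      obtain ⟨a, b, hab⟩ := e2
      rw [← hab]
      exact dvd_add (ha'.mul_left a) (hb'.mul_left b)
    have h2' : q ∣ 1 := by exact_mod_cast h1'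
    exact hq.one_lt.ne' (Nat.dvd_one.1 h2')
  · have p1 := (h2 y hG 1 (Or.inl rfl)).1
    have p2 := (h2 y hG (-1) (Or.inr rfl)).1
    refine hR 5 _ _ ![xP y 1 1, xP y 2 1, xP y 3 1, xP y 4 1, xP y 4 (-1)]
      ![yP y 1 1, yP y 2 1, yP y 3 1, yP y 4 1, yP y 4 (-1)]
      ?_ hdisc 5 h5 ?_
    · intro i
      fin_cases i
      · exact p1 1 (by decide)
      · exact p1 2 (by decide)
      · exact p1 3 (by decide)
      · exact p1 4 (by decide)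
      · exact p2 4 (by decide)
    · intro S hS
      refine cert_all 5 _ _ _ ![167, -69, -49, 163, 323] hA hB ?_ S (cert_dec5 S hS)
      intro i
      fin_cases i
      · exact x1
      · exact x2
      · exact x3
      · exact x4
      · exact x5

end Pool.Helper17.R5
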